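import Pool.Agent.V7H38.TS.Spec
import Pool.Agent.Helper923.HMertens

/-!
# Project TS, piece PROD

`∏_{p ∣ M, p > 10} p / (p - 4) ≤ C (log log X)^4` for `0 < M ≤ X^6`.
-/

set_option autoImplicit false

namespace Pool.Agent.V7H16.TS

open Finset

lemma factor_le {p : ℕ} (hp : 10 < p) :
    (p : ℝ) / ((p : ℝ) - 4) ≤ Real.exp (4 * (1 / (p : ℝ)) + 26 * (1 / (p : ℝ) ^ 2)) := by
  have h0 : (11 : ℝ) ≤ p := by exact_mod_cast hp
  have hp0 : (0 : ℝ) < p := by linarith
  have h4 : (0 : ℝ) < (p : ℝ) - 4 := by linarith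
  have h1 : (p : ℝ) / ((p : ℝ) - 4) = 4 / ((p : ℝ) - 4) + 1 := by
    field_simp
    ring
  have h2 : 4 / ((p : ℝ) - 4) ≤ 4 * (1 / (p : ℝ)) + 26 * (1 / (p : ℝ) ^ 2) := by
    rw [div_le_iff₀ h4]
    have h3 : (4 * (1 / (p : ℝ)) + 26 * (1 / (p : ℝ) ^ 2)) * ((p : ℝ) - 4) =
        4 + (10 * p - 104) / (p : ℝ) ^ 2 := by
      field_simp
      ring
    rw [h3]
    have : 0 ≤ (10 * (p : ℝ) - 104) / (p : ℝ) ^ 2 := div_nonneg (by linarith) (by positivity)
    linarith
  rw [h1]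
  exact (add_le_add_left h2 1).trans (by
    have := Real.add_one_le_exp (4 * (1 / (p : ℝ)) + 26 * (1 / (p : ℝ) ^ 2))
    linarith)

lemma card_pf_le {n : ℕ} (hn : 1 ≤ n) : (n.primeFactors.card : ℝ) * Real.log 2 ≤ Real.log n := by
  have h1 : 2 ^ n.primeFactors.card ≤ ∏ p ∈ n.primeFactors, p :=
    Finset.pow_card_le_prod _ _ _ (fun p hp => (Nat.prime_of_mem_primeFactors hp).two_le)
  have h2 : 2 ^ n.primeFactors.card ≤ n :=
    h1.trans (Nat.le_of_dvd (by omega) (Nat.prod_primeFactors_dvd n))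
  have h3 : ((2 : ℝ) ^ n.primeFactors.card) ≤ n := by exact_mod_cast h2
  have h4 := Real.log_le_log (by positivity) h3
  rwa [Real.log_pow] at h4

/-- the sum of the reciprocals of the prime factors -/
lemma sum_le : ∃ C : ℝ, 0 ≤ C ∧ ∀ y n : ℕ, 3 ≤ y → 1 ≤ n → Real.log n ≤ 6 * y →
    ∑ p ∈ n.primeFactors, 1 / (p : ℝ) ≤ C + Real.log (Real.log y) := by
  obtain ⟨C, hC0, hC⟩ := Pool.Agent.Helper923.HMertens.mertens_ratio
  have hl2 : (0 : ℝ) < Real.log 2 := Real.log_pos (by norm_num)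
  have hl2' := Real.log_two_gt_d9
  have hl2'' := Real.log_two_lt_d9
  have hll : Real.log (Real.log 2) ≤ 0 := Real.log_nonpos hl2.le (by linarith)
  refine ⟨1 / 2 + C / Real.log 2 + 9 - Real.log (Real.log 2), by
    have : 0 ≤ C / Real.log 2 := by positivity
    linarith, ?_⟩
  intro y n hy hn hlog
  have hy0 : (0 : ℝ) < y := by exact_mod_cast (by omega : 0 < y)
  have h2 : ∑ p ∈ n.primeFactors, 1 / (p : ℝ) ≤
      ∑ p ∈ (Finset.Icc 1 y).filter Nat.Prime, 1 / (p : ℝ) +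
        ∑ p ∈ n.primeFactors, 1 / (y : ℝ) := by
    have e1 : ∑ p ∈ n.primeFactors, 1 / (p : ℝ) =
        ∑ p ∈ n.primeFactors.filter (· ≤ y), 1 / (p : ℝ) +
        ∑ p ∈ n.primeFactors.filter (¬ · ≤ y), 1 / (p : ℝ) :=
      (Finset.sum_filter_add_sum_filter_not _ _ _).symm
    rw [e1]
    refine add_le_add ?_ ?_
    · refine Finset.sum_le_sum_of_subset_of_nonneg ?_ (fun i _ _ => by positivity)
      intro p hp
      rw [Finset.mem_filter] at hp
      rw [Finset.mem_filter, Finset.mem_Icc]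
      have := Nat.prime_of_mem_primeFactors hp.1
      exact ⟨⟨this.one_lt.le, hp.2⟩, this⟩
    · refine (Finset.sum_le_sum (g := fun _ => 1 / (y : ℝ)) ?_).trans
        (Finset.sum_le_sum_of_subset_of_nonneg (Finset.filter_subset _ _)
          (fun i _ _ => by positivity))
      intro p hp
      rw [Finset.mem_filter] at hp
      have h3 : (y : ℝ) ≤ p := by exact_mod_cast (by omega : y ≤ p)
      exact one_div_le_one_div_of_le hy0 h3
  have h3 : ∑ p ∈ n.primeFactors, 1 / (y : ℝ) ≤ 9 := by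
    rw [Finset.sum_const, nsmul_eq_mul]
    have := card_pf_le hn
    rw [mul_one_div, div_le_iff₀ hy0]
    have h4 : (n.primeFactors.card : ℝ) * Real.log 2 ≤ 6 * y := this.trans hlog
    nlinarith
  have h4 : ∑ p ∈ (Finset.Icc 1 y).filter Nat.Prime, 1 / (p : ℝ) ≤
      1 / 2 + (Real.log (Real.log y / Real.log 2) + C / Real.log 2) := by
    have h5 := hC 2 y le_rfl (by omega)
    have h6 := (abs_le.1 h5).2
    have h7 : (Finset.Icc 1 y).filter Nat.Prime = insert 2 ((Finset.Ioc 2 y).filter Nat.Prime) := by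
      ext p
      rw [Finset.mem_insert, Finset.mem_filter, Finset.mem_filter, Finset.mem_Icc, Finset.mem_Ioc]
      constructor
      · rintro ⟨⟨h8, h9⟩, h10⟩
        have := h10.two_le
        rcases Nat.eq_or_lt_of_le this with h11 | h11
        · exact Or.inl h11.symm
        · exact Or.inr ⟨⟨h11, h9⟩, h10⟩
      · rintro (rfl | ⟨⟨h8, h9⟩, h10⟩)
        · exact ⟨⟨by omega, by omega⟩, Nat.prime_two⟩
        · exact ⟨⟨by omega, h9⟩, h10⟩
    rw [h7, Finset.sum_insert (by simp)]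
    have h12 : (((2 : ℕ) : ℝ)) = 2 := by norm_num
    rw [h12] at h6 ⊢
    linarith
  have hly : 0 < Real.log y := Real.log_pos (by exact_mod_cast (by omega : 1 < y))
  rw [Real.log_div hly.ne' hl2.ne'] at h4
  linarith

theorem t_PROD : Pool.Agent.V7H38.TS.S_PROD := by
  obtain ⟨C, hC0, hC⟩ := sum_le
  have hsum : Summable fun n : ℕ => 1 / (n : ℝ) ^ 2 := Real.summable_one_div_nat_pow.2 (by norm_num)
  set K : ℝ := ∑' n : ℕ, 1 / (n : ℝ) ^ 2 with hK
  refine ⟨16 * Real.exp (4 * C + 26 * K), by positivity, 100, ?_⟩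
  intro X hX M hM0 hM
  have hX0 : (100 : ℝ) ≤ X := by exact_mod_cast hX
  have hlX : 3 ≤ Real.log X := by
    have h1 : Real.log (Real.exp 3) ≤ Real.log X := by
      refine Real.log_le_log (Real.exp_pos _) ?_
      have h2 : Real.exp 3 = Real.exp 1 ^ 3 := by
        rw [← Real.exp_nat_mul]
        norm_num
      have h3 := Real.exp_one_lt_d9
      have h4 := Real.exp_pos 1
      rw [h2]
      calc Real.exp 1 ^ 3 ≤ (2.7182818286 : ℝ) ^ 3 := pow_le_pow_left₀ h4.le h3.le 3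
        _ ≤ X := by norm_num; linarith
    rwa [Real.log_exp] at h1
  set y : ℕ := ⌈Real.log X⌉₊ with hy
  have hy1 : Real.log X ≤ y := Nat.le_ceil _
  have hy2 : (y : ℝ) < Real.log X + 1 := Nat.ceil_lt_add_one (by linarith)
  have hy3 : 3 ≤ y := by
    have : (3 : ℝ) ≤ y := hlX.trans hy1
    exact_mod_cast this
  have hM1 : 1 ≤ M := Nat.one_le_iff_ne_zero.2 hM0
  have hlM : Real.log M ≤ 6 * y := by
    have h1 : (M : ℝ) ≤ (X : ℝ) ^ 6 := by exact_mod_cast hM
    have h2 := Real.log_le_log (by exact_mod_cast hM1) h1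
    rw [Real.log_pow] at h2
    push_cast at h2
    linarith
  have h1 := hC y M hy3 hM1 hlM
  -- log log y
  have hll0 : 0 < Real.log (Real.log X) := Real.log_pos (by linarith)
  have hly : 0 < Real.log y := Real.log_pos (by exact_mod_cast (by omega : 1 < y))
  have h2 : Real.log y ≤ 2 * Real.log (Real.log X) := by
    have h3 : (y : ℝ) ≤ Real.log X ^ 2 := by nlinarith
    have h4 := Real.log_le_log (by positivity) h3
    rw [Real.log_pow] at h4
    exact_mod_cast h4
  set S := M.primeFactors.filter (fun p => 10 < p) with hS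
  have h5 : ∑ p ∈ S, 1 / (p : ℝ) ≤ C + Real.log (Real.log y) :=
    (Finset.sum_le_sum_of_subset_of_nonneg (Finset.filter_subset _ _)
      (fun i _ _ => by positivity)).trans h1
  have h6 : ∑ p ∈ S, 1 / (p : ℝ) ^ 2 ≤ K := hsum.sum_le_tsum S (fun i _ => by positivity)
  calc ∏ p ∈ S, (p : ℝ) / ((p : ℝ) - 4)
      ≤ ∏ p ∈ S, Real.exp (4 * (1 / (p : ℝ)) + 26 * (1 / (p : ℝ) ^ 2)) := by
        refine Finset.prod_le_prod (fun p hp => ?_) fun p hp => factor_le (Finset.mem_filter.1 hp).2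
        have h7 : (11 : ℝ) ≤ p := by exact_mod_cast (Finset.mem_filter.1 hp).2
        exact div_nonneg (by linarith) (by linarith)
    _ = Real.exp (4 * ∑ p ∈ S, 1 / (p : ℝ) + 26 * ∑ p ∈ S, 1 / (p : ℝ) ^ 2) := by
        rw [← Real.exp_sum, Finset.sum_add_distrib, Finset.mul_sum, Finset.mul_sum]
    _ ≤ Real.exp ((4 * C + 26 * K) + 4 * Real.log (Real.log y)) :=
        Real.exp_le_exp.2 (by linarith)
    _ = Real.exp (4 * C + 26 * K) * Real.log y ^ 4 := by
        rw [Real.exp_add]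
        congr 1
        have : (4 : ℝ) * Real.log (Real.log y) = ((4 : ℕ) : ℝ) * Real.log (Real.log y) := by norm_num
        rw [this, Real.exp_nat_mul, Real.exp_log hly]
    _ ≤ Real.exp (4 * C + 26 * K) * (2 * Real.log (Real.log X)) ^ 4 :=
        mul_le_mul_of_nonneg_left (pow_le_pow_left₀ hly.le h2 4) (Real.exp_pos _).le
    _ = 16 * Real.exp (4 * C + 26 * K) * Real.log (Real.log X) ^ 4 := by ring

end Pool.Agent.V7H16.TS
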